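import Pool.Agent.Y140.AW.Stm

/-!
# Project AW: the polynomial `Θ`
-/

set_option autoImplicit false

open Polynomial

namespace Pool.Agent.Y261.AW

open Pool.Agent.H391R2 Pool.Agent.H391R2.T4 Pool.Agent.Y140.AW

theorem res_ne {L : Type*} [Field L] (f : L[X]) (hf : f.Monic) (hs : f.Separable) :
    resultant f f.derivative f.natDegree (f.natDegree - 1) ≠ 0 := by
  have h1 : f.derivative.natDegree ≤ f.natDegree - 1 := natDegree_derivative_le f
  obtain ⟨k, hk⟩ := Nat.exists_eq_add_of_le h1
  rw [hk, resultant_add_right_deg _ _ _ _ _ le_rfl, hf.coeff_natDegree, one_pow, one_mul]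
  exact resultant_ne_zero _ _ hs

/-- an element whose stabilizer is a given subgroup -/
theorem exists_fix {L E : Type*} [Field L] [Field E] [Algebra L E] [FiniteDimensional L E]
    [IsGalois L E] (H : Subgroup (E ≃ₐ[L] E)) : ∃ θ : E, ∀ σ : E ≃ₐ[L] E, σ θ = θ ↔ σ ∈ H := by
  obtain ⟨α, hα⟩ := Field.exists_primitive_element L (IntermediateField.fixedField H)
  obtain ⟨a, h1⟩ : ∃ a : E, IntermediateField.adjoin L {a} = IntermediateField.fixedField H := by
    refine ⟨(α : E), ?_⟩
    have h2 := congrArg (IntermediateField.map (IntermediateField.fixedField H).val) hα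
    rw [IntermediateField.adjoin_map, Set.image_singleton] at h2
    rw [← AlgHom.fieldRange_eq_map, IntermediateField.fieldRange_val] at h2
    exact h2
  refine ⟨a, fun σ => ?_⟩
  have h3 : IntermediateField.fixingSubgroup (IntermediateField.fixedField H) = H :=
    IntermediateField.fixingSubgroup_fixedField H
  rw [← h3, ← h1, IntermediateField.mem_fixingSubgroup_iff]
  constructor
  · intro h x hx
    have h4 : IntermediateField.adjoin L {a} ≤
        IntermediateField.fixedField (Subgroup.zpowers σ) := by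
      rw [IntermediateField.adjoin_le_iff, Set.singleton_subset_iff]
      rintro ⟨τ, hτ⟩
      have h5 : Subgroup.zpowers σ ≤ MulAction.stabilizer (E ≃ₐ[L] E) a := by
        rw [Subgroup.zpowers_le]
        exact h
      exact h5 hτ
    exact h4 hx ⟨σ, Subgroup.mem_zpowers σ⟩
  · intro h
    exact h _ (IntermediateField.mem_adjoin_simple_self L _)

theorem t_data : St_data := by
  intro K _ Γ G _ _ _ _ f hf hR
  obtain ⟨F, fF, aR, aL, aK, t1, t2, fd, gal, γ, -, h2⟩ := hR
  have e : aK = aL := by
    refine Algebra.algebra_ext _ _ fun r => ?_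
    exact @IsScalarTower.algebraMap_apply K K F _ _ _ _ aL aK t2 r
  subst e
  obtain ⟨θ0, hθ0⟩ := exists_fix (γ.symm.toMonoidHom.comp f).range
  let _ : Algebra K[X] F := ((algebraMap (RatFunc K) F).comp (algebraMap K[X] (RatFunc K))).toAlgebra
  have _ : IsScalarTower K[X] (RatFunc K) F := IsScalarTower.of_algebraMap_eq fun _ => rfl
  have halg : IsAlgebraic K[X] θ0 := by
    rw [IsFractionRing.isAlgebraic_iff K[X] (RatFunc K) F]
    exact Algebra.IsAlgebraic.isAlgebraic θ0
  obtain ⟨y, hy0, hy⟩ := halg.exists_integral_multiple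
  set θ : F := y • θ0 with hθ
  have hy' : algebraMap (RatFunc K) F (algebraMap K[X] (RatFunc K) y) ≠ 0 := by
    rw [Ne, map_eq_zero, map_eq_zero_iff _ (IsFractionRing.injective K[X] (RatFunc K))]
    exact hy0
  have hfix : ∀ σ : F ≃ₐ[RatFunc K] F, σ θ = θ ↔ σ ∈ (γ.symm.toMonoidHom.comp f).range := by
    intro σ
    rw [← hθ0 σ, hθ, Algebra.smul_def, IsScalarTower.algebraMap_apply K[X] (RatFunc K) F, map_mul,
      AlgEquiv.commutes]
    exact ⟨fun h => mul_left_cancel₀ hy' h, fun h => by rw [h]⟩
  have hmin : minpoly (RatFunc K) θ = (minpoly K[X] θ).map (algebraMap K[X] (RatFunc K)) :=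
    minpoly.isIntegrallyClosed_eq_field_fractions' (RatFunc K) hy
  have hmon : (minpoly K[X] θ).Monic := minpoly.monic hy
  refine ⟨F, fF, aR, aK, t1, fd, gal, γ.symm.toMonoidHom.comp f, θ, minpoly K[X] θ,
    resultant (minpoly K[X] θ) (minpoly K[X] θ).derivative (minpoly K[X] θ).natDegree
      ((minpoly K[X] θ).natDegree - 1), h2, ?_, hfix, hmin.symm, hmon, rfl,
      minpoly.natDegree_pos hy, rfl, ?_⟩
  · exact γ.symm.injective.comp hf
  · intro h0
    have h3 := resultant_map_map (minpoly K[X] θ) (minpoly K[X] θ).derivative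
      (minpoly K[X] θ).natDegree ((minpoly K[X] θ).natDegree - 1) (algebraMap K[X] (RatFunc K))
    rw [h0, map_zero, ← derivative_map, ← hmin] at h3
    have h4 : (minpoly K[X] θ).natDegree = (minpoly (RatFunc K) θ).natDegree := by
      rw [hmin, hmon.natDegree_map]
    rw [h4] at h3
    exact res_ne _ (minpoly.monic (Algebra.IsIntegral.isIntegral θ))
      (Algebra.IsSeparable.isSeparable (RatFunc K) θ) h3

end Pool.Agent.Y261.AW
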